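import Mathlib
import Pool.Agent.H22.GTEndo

set_option autoImplicit false

open ProfiniteGrp.ProfiniteCompletion in
/-- In the profinite completion of the free group on `x, y`, some `f` in the closed derived
subgroup gives a non-surjective continuous endomorphism `x ↦ x`, `y ↦ f⁻¹ y f`. -/
theorem Pool.Agent.Results.MP_47cbd1_al.NotInvertible.result :
    let F₀ : GrpCat.{0} := GrpCat.of (FreeGroup (Fin 2))
    let F := completion F₀
    let x : F := etaFn F₀ (FreeGroup.of 0)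
    let y : F := etaFn F₀ (FreeGroup.of 1)
    ∃ f ∈ (commutator F).topologicalClosure,
      (∃! φ : F →ₜ* F, φ x = x ∧ φ y = f⁻¹ * y * f) ∧
      ∀ φ : F →ₜ* F, φ x = x → φ y = f⁻¹ * y * f → ¬ Function.Surjective φ := by
  intro F₀ F x y
  refine ⟨x * y * x⁻¹ * y⁻¹, Subgroup.le_topologicalClosure _
    (Subgroup.commutator_mem_commutator (Subgroup.mem_top x) (Subgroup.mem_top y)), ?_, ?_⟩
  · obtain ⟨φ, h0, h1⟩ := Pool.Agent.H22.GTEndo.exists_lift F x
      ((x * y * x⁻¹ * y⁻¹)⁻¹ * y * (x * y * x⁻¹ * y⁻¹))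
    exact ⟨φ, ⟨h0, h1⟩, fun ψ h => Pool.Agent.H22.GTEndo.unique F ψ φ (h.1.trans h0.symm)
      (h.2.trans h1.symm)⟩
  · exact fun φ h0 h1 => Pool.Agent.H22.GTEndo.not_surj φ x y rfl rfl h0 h1
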